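import Pool.Agent.H132EC.Basic

/-! # MP_7f565b_co, Q1: a graph which is edge-critical for domination but not for irredundance

The graph has 11 vertices and 19 edges, domination number 4 and lower irredundance number 3. Adding
any edge lowers the domination number, but after adding the edge between 0 and 1 the lower
irredundance number is still 3. -/

set_option autoImplicit false

namespace Pool.Agent.Results.MP_7f565b_co.GammaNotIr

open Pool.Agent.H132EC

/-- the masks of the closed neighbourhoods -/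
def nb (a : Fin 11) : ℕ := [617, 1830, 166, 569, 344, 1135, 1137, 132, 274, 523, 1122].getD a 0

/-- the graph -/
def G : SimpleGraph (Fin 11) where
  Adj a b := a ≠ b ∧ (nb a).testBit b = true
  symm := by
    have h : ∀ a b : Fin 11, (nb a).testBit b = true → (nb b).testBit a = true := by decide +kernel
    exact ⟨fun a b hab => ⟨hab.1.symm, h a b hab.2⟩⟩
  loopless := ⟨fun a h => h.1 rfl⟩

theorem rep : Rep nb G := by
  have h : ∀ a : Fin 11, (nb a).testBit a = true := by decide +kernel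
  refine ⟨fun a b => ⟨fun hab => ?_, ?_⟩, by decide +kernel⟩
  · by_cases e : b = a
    · exact Or.inl e
    · exact Or.inr ⟨fun e' => e e'.symm, hab⟩
  · rintro (rfl | hab)
    · exact h b
    · exact hab.2

/-- a dominating set of size 3 of the graph with the edge `uv` added -/
def cert (u v : Fin 11) : List (Fin 11) :=
  ((([[[], [1, 2, 4], [1, 2, 4], [], [0, 1, 2], [], [], [0, 1, 3], [0, 2, 6], [], [0, 2, 4]],
    [[1, 2, 4], [], [], [1, 2, 6], [0, 1, 2], [], [1, 2, 3], [0, 1, 3], [], [], []],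
    [[1, 2, 4], [], [], [1, 2, 6], [0, 1, 2], [], [1, 2, 3], [], [0, 2, 6], [2, 4, 5], [0, 2, 4]],
    [[], [1, 2, 6], [1, 2, 6], [], [], [], [1, 2, 3], [0, 1, 3], [2, 3, 5], [], [2, 3, 4]],
    [[0, 1, 2], [0, 1, 2], [0, 1, 2], [], [], [1, 2, 5], [], [0, 1, 4], [], [2, 4, 5], [0, 2, 4]],
    [[], [], [], [], [1, 2, 5], [], [], [0, 4, 5], [2, 3, 5], [2, 4, 5], []],
    [[], [1, 2, 3], [1, 2, 3], [1, 2, 3], [], [], [], [0, 1, 6], [0, 2, 6], [2, 4, 6], []],
    [[0, 1, 3], [0, 1, 3], [], [0, 1, 3], [0, 1, 4], [0, 4, 5], [0, 1, 6], [], [0, 1, 8], [1, 4, 9], [0, 7, 8]],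
    [[0, 2, 6], [], [0, 2, 6], [2, 3, 5], [], [2, 3, 5], [0, 2, 6], [0, 1, 8], [], [2, 5, 8], [0, 2, 8]],
    [[], [], [2, 4, 5], [], [2, 4, 5], [2, 4, 5], [2, 4, 6], [1, 4, 9], [2, 5, 8], [], [2, 4, 9]],
    [[0, 2, 4], [], [0, 2, 4], [2, 3, 4], [0, 2, 4], [], [], [0, 7, 8], [0, 2, 8], [2, 4, 9], []]] :
    List (List (List (Fin 11)))).getD u []).getD v [])

theorem cert_ok : ∀ u v : Fin 11, u ≠ v → (nb u).testBit v = false →
    domB (addE nb u v) (cert u v) = true ∧ (cert u v).length ≤ 3 := by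
  decide +kernel

theorem result : ∃ G : SimpleGraph (Fin 11), EdgeCritical gamma G ∧ ¬ EdgeCritical ir G := by
  refine ⟨G, ?_, ?_⟩
  · intro u v huv hadj
    have h4 : 4 ≤ gamma G := le_gamma rep (by norm_num) (by decide +kernel)
    have hb : (nb u).testBit v = false := by
      rw [← Bool.not_eq_true]
      exact fun h => hadj ⟨huv, h⟩
    obtain ⟨hc1, hc2⟩ := cert_ok u v huv hb
    have h3 := (gamma_le (addE_rep rep u v huv) (cert u v) hc1).trans hc2
    omega
  · intro h
    have h1 := h 0 1 (by decide) (by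
      rintro ⟨_, h2⟩
      revert h2
      decide +kernel)
    have h2 : ir G ≤ 3 := ir_le rep [5, 6, 9] (by decide +kernel)
    have h3 : 3 ≤ ir (G ⊔ SimpleGraph.edge 0 1) :=
      le_ir_three (addE_rep rep 0 1 (by decide)) ⟨[0, 5, 6], by decide +kernel⟩
        (by decide +kernel) (by decide +kernel)
    omega

end Pool.Agent.Results.MP_7f565b_co.GammaNotIr
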