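import Pool.Agent.H132EC.Basic

/-! # MP_7f565b_co, Q2: a graph which is edge-critical for irredundance but not for domination

The graph has 11 vertices and 18 edges, and its domination number and its lower irredundance number
are 4. Adding any edge lowers the lower irredundance number, but after adding the edge between 0
and 9 the domination number is still 4. -/

set_option autoImplicit false

namespace Pool.Agent.Results.MP_7f565b_co.IrNotGamma

open Pool.Agent.H132EC

/-- the masks of the closed neighbourhoods -/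
def nb (a : Fin 11) : ℕ := [181, 1314, 789, 1320, 1557, 43, 192, 705, 270, 1684, 1562].getD a 0

/-- the graph -/
def G : SimpleGraph (Fin 11) where
  Adj a b := a ≠ b ∧ (nb a).testBit b = true
  symm := by
    have h : ∀ a b : Fin 11, (nb a).testBit b = true → (nb b).testBit a = true := by decide +kernel
    exact ⟨fun a b hab => ⟨hab.1.symm, h a b hab.2⟩⟩
  loopless := ⟨fun a h => h.1 rfl⟩

theorem rep : Rep nb G := by
  have h : ∀ a : Fin 11, (nb a).testBit a = true := by decide +kernel
  refine ⟨fun a b => ⟨fun hab => ?_, ?_⟩, by decide +kernel⟩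
  · by_cases e : b = a
    · exact Or.inl e
    · exact Or.inr ⟨fun e' => e e'.symm, hab⟩
  · rintro (rfl | hab)
    · exact h b
    · exact hab.2

/-- a maximal irredundant set of size at most 3 of the graph with the edge `uv` added -/
def cert (u v : Fin 11) : List (Fin 11) :=
  ((([[[], [0, 3, 7], [], [0, 1, 7], [], [], [0, 1, 10], [], [0, 6, 10], [2, 9, 10], [0, 7, 8]],
    [[0, 3, 7], [], [0, 2, 3], [0, 1, 2], [0, 3, 4], [], [0, 1, 10], [0, 3, 7], [], [3, 7, 9], []],
    [[], [0, 2, 3], [], [0, 1, 2], [], [0, 2, 10], [0, 2, 10], [1, 7, 10], [], [], [0, 2, 5]],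
    [[0, 1, 7], [0, 1, 2], [0, 1, 2], [], [0, 1, 4], [], [0, 3, 10], [0, 1, 7], [], [1, 7, 9], []],
    [[], [0, 3, 4], [], [0, 1, 4], [], [0, 4, 8], [0, 4, 8], [1, 7, 8], [0, 4, 5], [], []],
    [[], [], [0, 2, 10], [], [0, 4, 8], [], [1, 5, 9], [2, 7, 10], [0, 4, 5], [7, 8, 9], [0, 2, 5]],
    [[0, 1, 10], [0, 1, 10], [0, 2, 10], [0, 3, 10], [0, 4, 8], [1, 5, 9], [], [], [0, 2, 6], [0, 8, 9], [0, 1, 10]],
    [[], [0, 3, 7], [1, 7, 10], [0, 1, 7], [1, 7, 8], [2, 7, 10], [], [], [0, 7, 10], [], [0, 7, 8]],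
    [[0, 6, 10], [], [], [], [0, 4, 5], [0, 4, 5], [0, 2, 6], [0, 7, 10], [], [5, 6, 9], [0, 6, 10]],
    [[2, 9, 10], [3, 7, 9], [], [1, 7, 9], [], [7, 8, 9], [0, 8, 9], [], [5, 6, 9], [], []],
    [[0, 7, 8], [], [0, 2, 5], [], [], [0, 2, 5], [0, 1, 10], [0, 7, 8], [0, 6, 10], [], []]] :
    List (List (List (Fin 11)))).getD u []).getD v [])

theorem cert_ok : ∀ u v : Fin 11, u ≠ v → (nb u).testBit v = false →
    miB (addE nb u v) (cert u v) = true ∧ (cert u v).length ≤ 3 := by
  decide +kernel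

theorem result : ∃ G : SimpleGraph (Fin 11), EdgeCritical ir G ∧ ¬ EdgeCritical gamma G := by
  refine ⟨G, ?_, ?_⟩
  · intro u v huv hadj
    have h4 : 4 ≤ ir G := le_ir_four rep ⟨[0, 1, 2, 3], by decide +kernel⟩ (by decide +kernel)
      (by decide +kernel)
    have hb : (nb u).testBit v = false := by
      rw [← Bool.not_eq_true]
      exact fun h => hadj ⟨huv, h⟩
    obtain ⟨hc1, hc2⟩ := cert_ok u v huv hb
    have h3 := (ir_le (addE_rep rep u v huv) (cert u v) hc1).trans hc2
    omega
  · intro h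
    have h1 := h 0 9 (by decide) (by
      rintro ⟨_, h2⟩
      revert h2
      decide +kernel)
    have h2 : gamma G ≤ 4 := gamma_le rep [0, 1, 3, 7] (by decide +kernel)
    have h3 : 4 ≤ gamma (G ⊔ SimpleGraph.edge 0 9) :=
      le_gamma (addE_rep rep 0 9 (by decide)) (by norm_num) (by decide +kernel)
    omega

end Pool.Agent.Results.MP_7f565b_co.IrNotGamma
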